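import Pool.Agent.W601.RP.Stm2

/-! RP-D1: orthogonality of characters of the finite groups. -/

set_option autoImplicit false
open scoped Classical
open Filter Topology

namespace Pool.Agent.W822.RP

open Pool.Agent.W601.RP

theorem two_le_N (t : ℕ) : 2 ≤ N t := by
  unfold N
  have := Nat.factorial_pos (t + 1)
  omega

theorem pz_single (n : ℕ) (g : ℕ → TT) (t : ℕ) (ht : t < n) :
    pz (Pi.single (⟨t, ht⟩ : Fin n) 1 : Gm n) g = g t := by
  unfold pz
  rw [Finset.sum_eq_single (⟨t, ht⟩ : Fin n)]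
  · have : Fact (1 < N ((⟨t, ht⟩ : Fin n) : ℕ)) := ⟨two_le_N t⟩
    rw [Pi.single_eq_same, ZMod.val_one, one_smul]
  · intro b _ hb
    rw [Pi.single_eq_of_ne hb, ZMod.val_zero, zero_smul]
  · intro h
    exact absurd (Finset.mem_univ _) h

theorem d1 : S_PZ → S_D1 := by
  intro hP n g hg hex
  obtain ⟨t, ht, hgt⟩ := hex
  have hz0 := pz_single n g t ht
  set z0 : Gm n := Pi.single (⟨t, ht⟩ : Fin n) 1 with hz0def
  have hc : ((AddCircle.toCircle (g t) : Circle) : ℂ) ≠ 1 := by
    intro h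
    apply hgt
    have h1 : AddCircle.toCircle (g t) = AddCircle.toCircle (0 : TT) := by
      apply Subtype.ext
      rw [AddCircle.toCircle_zero]
      exact h
    exact AddCircle.injective_toCircle one_ne_zero h1
  have hmul : ∀ z : Gm n, ((AddCircle.toCircle (pz (z + z0) g) : Circle) : ℂ) =
      ((AddCircle.toCircle (pz z g) : Circle) : ℂ) * ((AddCircle.toCircle (g t) : Circle) : ℂ) := by
    intro z
    rw [hP.1 n g hg z z0, AddCircle.toCircle_add, Circle.coe_mul, hz0]
  have hS : ∑ z : Gm n, ((AddCircle.toCircle (pz (z + z0) g) : Circle) : ℂ) =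
      ∑ z : Gm n, ((AddCircle.toCircle (pz z g) : Circle) : ℂ) :=
    Equiv.sum_comp (Equiv.addRight z0) (fun z : Gm n => ((AddCircle.toCircle (pz z g) : Circle) : ℂ))
  rw [Finset.sum_congr rfl (fun z _ => hmul z), ← Finset.sum_mul] at hS
  have h2 : (∑ z : Gm n, ((AddCircle.toCircle (pz z g) : Circle) : ℂ)) *
      (((AddCircle.toCircle (g t) : Circle) : ℂ) - 1) = 0 := by
    rw [mul_sub, hS, mul_one, sub_self]
  rcases mul_eq_zero.mp h2 with h3 | h3
  · exact h3
  · exact absurd (sub_eq_zero.mp h3) hc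

end Pool.Agent.W822.RP
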